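import Pool.Agent.MP_f67ce1_al.TS.Up
import Pool.Agent.MP_f67ce1_al.Kaplansky

/-! Closure properties of modules all of whose submodules are projective. -/

set_option autoImplicit false

namespace Pool.Agent.MP_f67ce1_al.TS

open SD

variable {A : Type} [Ring A] {M N : Type} [AddCommGroup M] [Module A M] [AddCommGroup N]
  [Module A N]

theorem her_ext (f : M →ₗ[A] N) (hN : Her A N) (hK : Her A (LinearMap.ker f)) : Her A M :=
  fun Q => by
  refine proj_ext (f ∘ₗ Q.subtype).rangeRestrict (LinearMap.surjective_rangeRestrict _) (hN _)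
    (hK.of_injective (LinearMap.codRestrict _
      (Q.subtype ∘ₗ (LinearMap.ker (f ∘ₗ Q.subtype).rangeRestrict).subtype)
      fun x => ?_) fun x y h => ?_).proj
  · exact congrArg Subtype.val x.2
  · have e := congrArg Subtype.val h
    exact Subtype.ext (Subtype.ext e)

theorem her_prod (hM : Her A M) (hN : Her A N) : Her A (M × N) := by
  refine her_ext (LinearMap.snd A M N) hN
    (hM.of_injective (LinearMap.fst A M N ∘ₗ (LinearMap.ker _).subtype) fun x y h => ?_)
  exact Subtype.ext (Prod.ext h (x.2.trans y.2.symm))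

theorem her_of_bij (hM : Her A M) (f : M →ₗ[A] N) (h1 : ∀ x, f x = 0 → x = 0)
    (h2 : Function.Surjective f) : Her A N :=
  hM.of_injective (LinearEquiv.ofBijective f
    ⟨(injective_iff_map_eq_zero f).2 h1, h2⟩).symm.toLinearMap (LinearEquiv.injective _)

theorem her_sup (U V : Submodule A M) (hU : Her A U) (hV : Her A V)
    (h : ∀ x ∈ U, x ∈ V → x = 0) : Her A (U ⊔ V : Submodule A M) := by
  refine her_of_bij (her_prod hU hV)
    ((Submodule.inclusion le_sup_left).coprod (Submodule.inclusion le_sup_right)) ?_ ?_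
  · rintro ⟨x, y⟩ h0
    have e : (x : M) + y = 0 := congrArg Subtype.val h0
    have e1 : (x : M) = 0 := h x x.2 (by rw [eq_neg_of_add_eq_zero_left e]; exact V.neg_mem y.2)
    rw [e1, zero_add] at e
    exact Prod.ext (Subtype.ext e1) (Subtype.ext e)
  · rintro ⟨x, hx⟩
    obtain ⟨u, hu, i, hi, rfl⟩ := Submodule.mem_sup.1 hx
    exact ⟨(⟨u, hu⟩, ⟨i, hi⟩), rfl⟩

theorem her_cov0 (U : Submodule A M) (hU : Her A U) (hM : Module.Projective A M)
    (h : ∀ x, x ∉ U → ∀ y, ∃ a : A, y - a • x ∈ U) : Her A M := fun Q => by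
  by_cases hQ : Q ≤ U
  · exact (hU.of_injective _ (Submodule.inclusion_injective hQ)).proj
  obtain ⟨x, hx, hx'⟩ := SetLike.not_le_iff_exists.1 hQ
  have : Module.Projective A (Q × U) := by
    refine proj_ext (Q.subtype.coprod U.subtype) (fun y => ?_) hM
      (hU.of_injective (LinearMap.snd A Q U ∘ₗ (LinearMap.ker _).subtype) ?_).proj
    · obtain ⟨a, ha⟩ := h x hx' y
      exact ⟨(⟨a • x, Q.smul_mem a hx⟩, ⟨_, ha⟩), by simp⟩
    · rw [injective_iff_map_eq_zero]
      rintro ⟨⟨u, i⟩, hx⟩ h0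
      obtain rfl : i = 0 := h0
      obtain rfl : u = 0 := Subtype.ext (by simpa using hx)
      rfl
  exact .of_split (LinearMap.inl A Q U) (LinearMap.fst A Q U) rfl

theorem her_cov (U V : Submodule A A) (hU : Her A U) (hV : Module.Projective A V)
    (h : ∀ x ∈ V, x ∉ U → ∀ y ∈ V, ∃ a : A, y - a * x ∈ U) : Her A V := by
  refine her_cov0 (U.comap V.subtype) (hU.of_injective
    (V.subtype.restrict (p := U.comap V.subtype) (q := U) fun _ h => h) fun x y e => ?_) hV
    fun x hx y => h x x.2 hx y y.2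
  have e' := congrArg Subtype.val e
  exact Subtype.ext (Subtype.ext e')

theorem her_coords (p : ℕ → M →ₗ[A] N) (C : ℕ → Submodule A N) (hC : ∀ n, Her A (C n))
    (hp : ∀ n x, p n x ∈ C n) (hfin : ∀ x, {i | p i x ≠ 0}.Finite)
    (hinj : ∀ x, (∀ i, p i x = 0) → x = 0) : Her A M := fun Q => by
  refine projective_of_coords (fun n => p n ∘ₗ Q.subtype) (fun x => hfin x)
    (fun x hx => Subtype.ext (hinj x hx)) fun n => ?_
  refine ((hC n).of_injective _ (Submodule.inclusion_injective ?_)).proj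
  rintro _ ⟨x, -, rfl⟩
  exact hp n x

theorem her_pl (e w : A) (he : e * e = e) (h1 : e * w = w) (h2 : ∀ x, x * w = 0 → x * e = 0)
    (h : Her A (pl e)) : Her A (pl w) := by
  refine her_of_bij h ((LinearMap.toSpanSingleton A A w).rangeRestrict ∘ₗ (pl e).subtype) ?_ ?_
  · rintro ⟨_, c, rfl⟩ h0
    have e1 : c * e * w = 0 := congrArg Subtype.val h0
    have e2 := h2 _ e1
    rw [mul_assoc, he] at e2
    exact Subtype.ext e2
  · rintro ⟨_, c, rfl⟩
    exact ⟨⟨c * e, c, rfl⟩, Subtype.ext (by change c * e * w = c * w; rw [mul_assoc, h1])⟩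

theorem her_zero : Her A (pl (0 : A)) := fun Q => by
  have : Subsingleton Q := ⟨fun x y => by
    obtain ⟨⟨_, c, rfl⟩, _⟩ := x
    obtain ⟨⟨_, d, rfl⟩, _⟩ := y
    exact Subtype.ext (Subtype.ext (by simp))⟩
  infer_instance

end Pool.Agent.MP_f67ce1_al.TS
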