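import Pool.Agent.MP_f67ce1_al.TS.Rad

/-! A model of the system: a ring of matrices over a twisted monoid algebra. -/

set_option autoImplicit false

namespace Pool.Agent.MP_f67ce1_al.TS

open Classical

/-- The compatibility relation for products of basis elements. -/
def τ (s t : Finset (ℤ × ℕ)) : Prop := ∀ p ∈ s, ∀ p' ∈ t, p.1 < p'.1 ∨ p = p'

theorem τ_l (s t w : Finset (ℤ × ℕ)) : τ (s ∪ t) w ↔ τ s w ∧ τ t w := by
  simp only [τ, Finset.mem_union, or_imp, forall_and]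

theorem τ_r (s t w : Finset (ℤ × ℕ)) : τ s (t ∪ w) ↔ τ s t ∧ τ s w := by
  simp only [τ, Finset.mem_union, or_imp, forall_and]

/-- The coefficient algebra. -/
def B : Type := Finset (ℤ × ℕ) →₀ ℚ

noncomputable instance : AddCommGroup B := inferInstanceAs (AddCommGroup (Finset (ℤ × ℕ) →₀ ℚ))

noncomputable instance : Module ℚ B := inferInstanceAs (Module ℚ (Finset (ℤ × ℕ) →₀ ℚ))

/-- The basis. -/
noncomputable def bas : Module.Basis (Finset (ℤ × ℕ)) ℚ B := Finsupp.basisSingleOne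

/-- The multiplication. -/
noncomputable def μ : B →ₗ[ℚ] B →ₗ[ℚ] B :=
  bas.constr ℚ fun s => bas.constr ℚ fun t => if τ s t then bas (s ∪ t) else 0

theorem μ_bas (s t : Finset (ℤ × ℕ)) : μ (bas s) (bas t) = if τ s t then bas (s ∪ t) else 0 := by
  simp only [μ, Module.Basis.constr_basis]

theorem μ_assoc (x y w : B) : μ (μ x y) w = μ x (μ y w) := by
  have h1 : ∀ s t, μ (μ (bas s) (bas t)) = μ (bas s) ∘ₗ μ (bas t) := fun s t =>
    bas.ext fun r => by
      by_cases a : τ s t <;> by_cases b : τ t r <;> by_cases c : τ s r <;>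
        simp [μ_bas, τ_l, τ_r, a, b, c, Finset.union_assoc]
  have h2 : ∀ s, μ.flip w ∘ₗ μ (bas s) = μ (bas s) ∘ₗ μ.flip w := fun s =>
    bas.ext fun t => LinearMap.congr_fun (h1 s t) w
  have h3 : μ.flip w ∘ₗ μ.flip y = μ.flip (μ y w) :=
    bas.ext fun s => LinearMap.congr_fun (h2 s) y
  exact LinearMap.congr_fun h3 x

noncomputable instance : Ring B where
  __ := (inferInstance : AddCommGroup B)
  mul x y := μ x y
  one := bas ∅
  mul_assoc := μ_assoc
  one_mul x := LinearMap.congr_fun (f := μ (bas ∅)) (g := LinearMap.id)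
    (bas.ext fun s => by simp [μ_bas, τ]) x
  mul_one x := LinearMap.congr_fun (f := μ.flip (bas ∅)) (g := LinearMap.id)
    (bas.ext fun s => by simp [μ_bas, τ]) x
  zero_mul x := LinearMap.map_zero₂ μ x
  mul_zero x := (μ x).map_zero
  left_distrib x := (μ x).map_add
  right_distrib x y w := LinearMap.map_add₂ μ x y w

noncomputable instance : Algebra ℚ B :=
  Algebra.ofModule (fun c x y => LinearMap.map_smul₂ μ c x y) fun c x y => (μ x).map_smul c y

theorem bas_mul (s t : Finset (ℤ × ℕ)) : bas s * bas t = if τ s t then bas (s ∪ t) else 0 :=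
  μ_bas s t

/-- The sets allowed in the entry `(i, j)`. -/
def Inv (i j : ℤ) (s : Finset (ℤ × ℕ)) : Prop :=
  (∀ p ∈ s, i - 1 ≤ p.1 ∧ p.1 ≤ j) ∧ (s = ∅ → i ≤ j)

theorem Inv.mul {i j l : ℤ} {s t : Finset (ℤ × ℕ)} (hs : Inv i j s) (ht : Inv j l t)
    (h : τ s t) : Inv i l (s ∪ t) := by
  refine ⟨fun p hp => ?_, fun e => ?_⟩
  · rcases Finset.mem_union.1 hp with hp | hp
    · refine ⟨(hs.1 p hp).1, ?_⟩
      rcases t.eq_empty_or_nonempty with e | ⟨p', hp'⟩
      · exact (hs.1 p hp).2.trans (ht.2 e)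
      · exact ((h p hp p' hp').elim le_of_lt fun e => e ▸ le_rfl).trans (ht.1 p' hp').2
    · refine ⟨?_, (ht.1 p hp).2⟩
      rcases s.eq_empty_or_nonempty with e | ⟨p', hp'⟩
      · exact (sub_le_sub_right (hs.2 e) 1).trans (ht.1 p hp).1
      · exact (hs.1 p' hp').1.trans ((h p' hp' p hp).elim le_of_lt fun e => e ▸ le_rfl)
  · rw [Finset.union_eq_empty] at e
    exact (hs.2 e.1).trans (ht.2 e.2)

/-- The entries allowed in the place `(i, j)`. -/
noncomputable def W (i j : ℤ) : Submodule ℚ B := Submodule.span ℚ (bas '' {s | Inv i j s})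

theorem W_mul {i j l : ℤ} {x y : B} (hx : x ∈ W i j) (hy : y ∈ W j l) : x * y ∈ W i l := by
  induction hx using Submodule.span_induction with
  | zero => rw [zero_mul]; exact zero_mem _
  | add x x' _ _ h h' => rw [add_mul]; exact add_mem h h'
  | smul c x _ h => rw [smul_mul_assoc]; exact Submodule.smul_mem _ c h
  | mem x hx =>
    obtain ⟨s, hs, rfl⟩ := hx
    induction hy using Submodule.span_induction with
    | zero => rw [mul_zero]; exact zero_mem _
    | add x x' _ _ h h' => rw [mul_add]; exact add_mem h h'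
    | smul c x _ h => rw [mul_smul_comm]; exact Submodule.smul_mem _ c h
    | mem y hy =>
      obtain ⟨t, ht, rfl⟩ := hy
      rw [bas_mul]
      split_ifs with h
      exacts [Submodule.subset_span ⟨_, Inv.mul hs ht h, rfl⟩, zero_mem _]

theorem W_l {i j : ℤ} {x : B} (hx : x ∈ W i j) (n : ℕ) (h : x * bas {(j + 1, n)} = 0) :
    x = 0 := by
  have := LinearMap.eqOn_span' (s := bas '' {s | Inv i j s}) (g := LinearMap.id)
    (f := bas.constr ℚ (fun s => bas (s.erase (j + 1, n))) ∘ₗ μ.flip (bas {(j + 1, n)})) (by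
      rintro _ ⟨s, hs, rfl⟩
      have h1 : τ s {(j + 1, n)} := fun p hp p' hp' => .inl (by
        rw [Finset.mem_singleton.1 hp']
        exact Int.lt_add_one_of_le (hs.1 p hp).2)
      have h2 : (j + 1, n) ∉ s := fun hp => by have := (hs.1 _ hp).2; omega
      simp [μ_bas, h1, Finset.erase_insert h2]) hx
  have e : μ.flip (bas {(j + 1, n)}) x = 0 := h
  rw [LinearMap.comp_apply, e, map_zero] at this
  exact this.symm

theorem W_r {i j : ℤ} {x : B} (hx : x ∈ W (i + 1 + 1) j) (n : ℕ) (h : bas {(i, n)} * x = 0) :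
    x = 0 := by
  have := LinearMap.eqOn_span' (s := bas '' {s | Inv (i + 1 + 1) j s}) (g := LinearMap.id)
    (f := bas.constr ℚ (fun s => bas (s.erase (i, n))) ∘ₗ μ (bas {(i, n)})) (by
      rintro _ ⟨s, hs, rfl⟩
      have h1 : τ {(i, n)} s := fun p hp p' hp' => .inl (by
        rw [Finset.mem_singleton.1 hp]
        have := (hs.1 p' hp').1
        omega)
      have h2 : (i, n) ∉ s := fun hp => by have := (hs.1 _ hp).1; omega
      simp [μ_bas, h1, Finset.erase_insert h2]) hx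
  have e : μ (bas {(i, n)}) x = 0 := h
  rw [LinearMap.comp_apply, e, map_zero] at this
  exact this.symm

variable {m : ℕ}

/-- The index set. -/
abbrev ι (m : ℕ) : Type := Finset.Icc (0 : ℤ) m

/-- The elementary matrices. -/
noncomputable def el (m : ℕ) (i j : ℤ) (b : B) : Matrix (ι m) (ι m) B :=
  Matrix.of fun a c => if a = i ∧ c = j then b else 0

theorem mul_el (x : Matrix (ι m) (ι m) B) (k : ι m) (l : ℤ) (b : B) (a c : ι m) :
    (x * el m k l b) a c = if c = l then x a k * b else 0 := by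
  rw [Matrix.mul_apply, Finset.sum_eq_single k]
  · simp [el]
  · intro d _ hd
    simp [el, hd]
  · simp

theorem el_mul (x : Matrix (ι m) (ι m) B) (k : ι m) (l : ℤ) (b : B) (a c : ι m) :
    (el m l k b * x) a c = if a = l then b * x k c else 0 := by
  rw [Matrix.mul_apply, Finset.sum_eq_single k]
  · simp [el]
  · intro d _ hd
    simp [el, hd]
  · simp

theorem el_out₁ {i : ℤ} (h : i ∉ Finset.Icc (0 : ℤ) m) (j : ℤ) (b : B) : el m i j b = 0 :=
  Matrix.ext fun a c => if_neg fun e : (a : ℤ) = i ∧ (c : ℤ) = j => h (e.1 ▸ a.2)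

theorem el_out₂ {i : ℤ} (h : i ∉ Finset.Icc (0 : ℤ) m) (j : ℤ) (b : B) : el m j i b = 0 :=
  Matrix.ext fun c a => if_neg fun e : (c : ℤ) = j ∧ (a : ℤ) = i => h (e.2 ▸ a.2)

theorem el_el {j : ℤ} (h : j ∈ Finset.Icc (0 : ℤ) m) (i l : ℤ) (b b' : B) :
    el m i j b * el m j l b' = el m i l (b * b') :=
  Matrix.ext fun a c => (mul_el _ ⟨j, h⟩ l b' a c).trans (by
    by_cases h1 : a = i <;> by_cases h2 : c = l <;> simp [el, h1, h2])

theorem el_el' {j j' : ℤ} (h : j ≠ j') (i l : ℤ) (b b' : B) : el m i j b * el m j' l b' = 0 := by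
  by_cases hj : j ∈ Finset.Icc (0 : ℤ) m
  · exact Matrix.ext fun a c => (el_mul _ ⟨j, hj⟩ i b a c).trans (by simp [el, h])
  · rw [el_out₂ hj, zero_mul]

theorem el_zero (i j : ℤ) : el m i j 0 = 0 := Matrix.ext fun _ _ => ite_self _

theorem el_L (i j : ℤ) (b : B) : el m i i 1 * el m i j b = el m i j b := by
  by_cases h : i ∈ Finset.Icc (0 : ℤ) m
  · rw [el_el h, one_mul]
  · rw [el_out₁ h j, mul_zero]

theorem el_R (i j : ℤ) (b : B) : el m i j b * el m j j 1 = el m i j b := by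
  by_cases h : j ∈ Finset.Icc (0 : ℤ) m
  · rw [el_el h, mul_one]
  · rw [el_out₂ h i, zero_mul]

theorem el_3 (i j : ℤ) (b b' : B) :
    el m j i b * (el m i j 1 * el m j i b') = el m j i (b * b') := by
  by_cases h : i ∈ Finset.Icc (0 : ℤ) m
  · by_cases h' : j ∈ Finset.Icc (0 : ℤ) m
    · rw [el_el h', el_el h, one_mul]
    · rw [el_out₁ h', el_out₁ h' i (b * b'), zero_mul]
  · rw [el_out₂ h, el_out₂ h j (b * b'), zero_mul]

theorem col (x : Matrix (ι m) (ι m) B) {k l : ℤ} (hk : k ∈ Finset.Icc (0 : ℤ) m)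
    (hl : l ∈ Finset.Icc (0 : ℤ) m) {b : B} (h : x * el m k l b = 0)
    (hb : ∀ i, x i ⟨k, hk⟩ * b = 0 → x i ⟨k, hk⟩ = 0) : x * el m k k 1 = 0 :=
  Matrix.ext fun a c => by
  have := mul_el x ⟨k, hk⟩ l b a ⟨l, hl⟩
  rw [h, if_pos rfl] at this
  rw [mul_el x ⟨k, hk⟩, hb a this.symm]
  simp

theorem row (x : Matrix (ι m) (ι m) B) {k l : ℤ} (hk : k ∈ Finset.Icc (0 : ℤ) m)
    (hl : l ∈ Finset.Icc (0 : ℤ) m) {b : B} (h : el m l k b * x = 0)
    (hb : ∀ i, b * x ⟨k, hk⟩ i = 0 → x ⟨k, hk⟩ i = 0) : el m k k 1 * x = 0 :=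
  Matrix.ext fun a c => by
  have := el_mul x ⟨k, hk⟩ l b ⟨l, hl⟩ c
  rw [h, if_pos rfl] at this
  rw [el_mul x ⟨k, hk⟩, hb c this.symm]
  simp

theorem el_ne {k l : ℤ} (hk : k ∈ Finset.Icc (0 : ℤ) m) (hl : l ∈ Finset.Icc (0 : ℤ) m)
    (s : Finset (ℤ × ℕ)) : el m k l (bas s) ≠ 0 := fun e =>
  bas.ne_zero s ((if_pos ⟨rfl, rfl⟩).symm.trans (congrFun (congrFun e ⟨k, hk⟩) ⟨l, hl⟩))

theorem one_W {i j : ℤ} (h : i ≤ j) : (1 : B) ∈ W i j :=
  Submodule.subset_span ⟨∅, ⟨by simp, fun _ => h⟩, rfl⟩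

/-- The matrices with allowed entries. -/
noncomputable def T (m : ℕ) : Subalgebra ℚ (Matrix (ι m) (ι m) B) where
  carrier := {x | ∀ a c : ι m, x a c ∈ W a c}
  mul_mem' hx hy a c := by
    rw [Matrix.mul_apply]
    exact sum_mem fun k _ => W_mul (hx a k) (hy k c)
  add_mem' hx hy a c := add_mem (hx a c) (hy a c)
  algebraMap_mem' r a c := by
    rw [Algebra.algebraMap_eq_smul_one, Matrix.smul_apply, Matrix.one_apply]
    split_ifs with h
    exacts [Submodule.smul_mem _ _ (one_W (h ▸ le_rfl)), Submodule.smul_mem _ _ (zero_mem _)]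

theorem el_T {i j : ℤ} {b : B} (h : b ∈ W i j) : el m i j b ∈ T m := fun a c => by
  rw [el, Matrix.of_apply]
  split_ifs with e
  · rwa [e.1, e.2]
  · exact zero_mem _

/-- The generators. -/
def gens (m : ℕ) : Set (Matrix (ι m) (ι m) B) :=
  {x | (∃ i, x = el m i i 1) ∨ (∃ i, x = el m i (i + 1) 1) ∨
    ∃ i n, x = el m (i + 1) i (bas {(i, n)})}

/-- The ring. -/
abbrev R (m : ℕ) : Type := Algebra.adjoin ℚ (gens m)

theorem R_T (x : R m) (a c : ι m) : x.1 a c ∈ W a c := by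
  refine (Algebra.adjoin_le (S := T m) ?_ : _ ≤ T m) x.2 a c
  rintro _ (⟨i, rfl⟩ | ⟨i, rfl⟩ | ⟨i, n, rfl⟩)
  · exact el_T (one_W le_rfl)
  · exact el_T (one_W (by omega))
  · exact el_T (Submodule.subset_span ⟨_, ⟨by simp, by simp⟩, rfl⟩)

theorem gen_adjoin {A : Type} [Ring A] [Algebra ℚ A] (s : Set A)
    (S : Subalgebra ℚ (Algebra.adjoin ℚ s))
    (h : ∀ x (hx : x ∈ s), ⟨x, Algebra.subset_adjoin hx⟩ ∈ S) (x : Algebra.adjoin ℚ s) :
    x ∈ S := by
  obtain ⟨x, hx⟩ := x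
  induction hx using Algebra.adjoin_induction with
  | mem x hx => exact h x hx
  | algebraMap r => exact S.algebraMap_mem r
  | add x y _ _ h h' => exact S.add_mem h h'
  | mul x y _ _ h h' => exact S.mul_mem h h'

/-- The system in the ring. -/
noncomputable def sys (m : ℕ) : Sys (R m) m where
  E i := ⟨el m i i 1, Algebra.subset_adjoin (.inl ⟨i, rfl⟩)⟩
  z i := ⟨el m i (i + 1) 1, Algebra.subset_adjoin (.inr (.inl ⟨i, rfl⟩))⟩
  u i n := ⟨el m (i + 1) i (bas {(i, n)}), Algebra.subset_adjoin (.inr (.inr ⟨i, n, rfl⟩))⟩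
  EE i := Subtype.ext (el_L _ _ _)
  EE' i j h := Subtype.ext (el_el' h _ _ _ _)
  sum := Subtype.ext (by
    rw [AddSubmonoidClass.coe_finsetSum]
    refine Matrix.ext fun a c => ?_
    rw [Matrix.sum_apply, Finset.sum_eq_single a.1]
    · simp [el, Matrix.one_apply, eq_comm]
    · intro b _ hb
      simp [el, hb.symm]
    · exact fun h => absurd a.2 h)
  Ez a := Subtype.ext (el_L _ _ _)
  zE a := Subtype.ext (el_R _ _ _)
  Eu a n := Subtype.ext (el_L _ _ _)
  uE a n := Subtype.ext (el_R _ _ _)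
  uzu a n := Subtype.ext ((el_3 _ _ _ _).trans (by simp [bas_mul, τ]))
  uzu' a n n' h := Subtype.ext ((el_3 _ _ _ _).trans (by simp [bas_mul, τ, h, el_zero]))
  uu a n n' := Subtype.ext (by
    change el m _ _ _ * el m _ _ _ = 0
    by_cases h : a + 1 ∈ Finset.Icc (0 : ℤ) m
    · rw [el_el h]
      simp [bas_mul, τ, el_zero]
    · rw [el_out₂ h, zero_mul])
  gen S h1 h2 h3 := gen_adjoin _ S (by
    rintro _ (⟨i, rfl⟩ | ⟨i, rfl⟩ | ⟨i, n, rfl⟩)
    exacts [h1 i, h2 i, h3 i n])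
  lz a ha x hx := Subtype.ext (by
    by_cases h : a ∈ Finset.Icc (0 : ℤ) m
    · have e : x.1 * el m a (a + 1) 1 = 0 := congrArg Subtype.val hx
      exact col x.1 h (by rw [Finset.mem_Icc] at h ⊢; omega) e fun i => by simp
    · change x.1 * el m _ _ _ = 0
      rw [el_out₁ h, mul_zero])
  lu a ha n x hx := Subtype.ext (by
    by_cases h : a ∈ Finset.Icc (0 : ℤ) m
    · have h1 : a + 1 ∈ Finset.Icc (0 : ℤ) m := by rw [Finset.mem_Icc] at h ⊢; omega
      have h2 : a + 1 + 1 ∈ Finset.Icc (0 : ℤ) m := by rw [Finset.mem_Icc] at h ⊢; omega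
      have e : x.1 * (el m _ _ _ * (el m _ _ _ * el m _ _ _)) = 0 := congrArg Subtype.val hx
      rw [el_el h2, el_el h1, one_mul, one_mul] at e
      exact col x.1 h h1 e fun i => W_l (R_T x i ⟨a, h⟩) n
    · change x.1 * el m _ _ _ = 0
      rw [el_out₁ h, mul_zero])
  rz a ha x hx := Subtype.ext (by
    by_cases h : a + 1 ∈ Finset.Icc (0 : ℤ) m
    · have e : el m a (a + 1) 1 * x.1 = 0 := congrArg Subtype.val hx
      exact row x.1 h (by rw [Finset.mem_Icc] at h ⊢; omega) e fun i => by simp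
    · change el m _ _ _ * x.1 = 0
      rw [el_out₁ h, zero_mul])
  ru a ha n x hx := Subtype.ext (by
    by_cases h : a + 1 + 1 ∈ Finset.Icc (0 : ℤ) m
    · have h1 : a + 1 ∈ Finset.Icc (0 : ℤ) m := by rw [Finset.mem_Icc] at h ⊢; omega
      have h2 : a ∈ Finset.Icc (0 : ℤ) m := by rw [Finset.mem_Icc] at h ⊢; omega
      have e : el m _ _ _ * el m _ _ _ * el m _ _ _ * x.1 = 0 := congrArg Subtype.val hx
      rw [el_el h2, el_el h1, mul_one, mul_one] at e
      exact row x.1 h h1 e fun i => W_r (R_T x ⟨a + 1 + 1, h⟩ i) n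
    · change el m _ _ _ * x.1 = 0
      rw [el_out₁ h, zero_mul])
  ne a h0 h1 n h := by
    have e := congrArg Subtype.val h
    exact el_ne (by rw [Finset.mem_Icc]; omega) (by rw [Finset.mem_Icc]; omega) _ e

end Pool.Agent.MP_f67ce1_al.TS
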