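import Pool.Agent.MP_f67ce1_al.TS.Sys

/-! The radical of a system and the projective dimension of the arrows modulo the radical. -/

set_option autoImplicit false

namespace Pool.Agent.MP_f67ce1_al.TS.Sys

open SD CategoryTheory

variable {A : Type} [Ring A] [Algebra ℚ A] {m : ℕ} (S : Sys A m)

theorem tri (k : ℕ) : ∀ i j : ℤ, j < k → j + 1 < i → ∀ y, S.E i * y * S.E j = 0 := by
  induction k with
  | zero => intro i j h _ y; rw [S.E_out (i := j) (Or.inl h), mul_zero]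
  | succ k ih =>
    intro i j h h' y
    obtain ⟨a, rfl⟩ : ∃ a, j = a + 1 := ⟨j - 1, by ring⟩
    have hz : ∀ y, S.E i * (y * S.z a) = 0 := fun y => by
      rw [← S.Ez, ← mul_assoc, ← mul_assoc, ih i a (by omega) (by omega), zero_mul]
    have hu : ∀ c n, S.E i * (c * S.u (a + 1) n) = 0 := fun c n => by
      obtain ⟨α, β, w, e⟩ := S.L2 a n c
      have e' : w * (S.z a * (S.z (a + 1) * S.u (a + 1) n)) = _ := e
      rw [eq_sub_iff_add_eq.1 e' |>.symm, mul_add, mul_add, mul_smul_comm, mul_smul_comm,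
        S.orth (S.EE i) (S.Eu _ n) (by omega), S.orth (S.EE i) (S.Ezu _ n) (by omega),
        ← mul_assoc w, ← mul_assoc (S.E i), hz]
      simp
    obtain ⟨c, x, v, hv, e⟩ := S.L1 a y
    obtain ⟨s, -, e'⟩ := S.coord _ hv
    rw [mul_assoc, e, mul_add, mul_add, mul_smul_comm, S.EE' _ _ (by omega), hz, e',
      Finset.mul_sum, Finset.sum_eq_zero fun n _ => by rw [← mul_assoc v, hu]]
    simp

theorem indep {a : ℤ} (h0 : 0 ≤ a + 1) (h1 : a + 1 < m) (n : ℕ) {α β : ℚ}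
    (h : α • S.u (a + 1) n + β • (S.z (a + 1) * S.u (a + 1) n) ∈ S.N a n) : α = 0 ∧ β = 0 := by
  obtain ⟨w, e⟩ := h
  have e' : w * (S.z a * (S.z (a + 1) * S.u (a + 1) n)) = _ := e
  have k : ∀ y, S.E (a + 1 + 1) * (y * (S.z a * (S.z (a + 1) * S.u (a + 1) n))) = 0 := fun y => by
    rw [← S.Ez a, mul_assoc (S.E a), ← mul_assoc, ← mul_assoc,
      S.tri (a + 1).toNat _ a (by omega) (by omega), zero_mul]
  have k1 := k w
  have k2 := k (S.u (a + 1) n * w)
  rw [e', mul_add, mul_smul_comm, mul_smul_comm, S.Eu,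
    S.orth (S.EE _) (S.Ezu _ n) (by omega), smul_zero, add_zero] at k1
  rw [mul_assoc, ← mul_assoc, S.Eu, e', mul_add, mul_smul_comm, mul_smul_comm, S.uzu,
    S.orth (S.uE _ n) (S.Eu _ n) (by omega), smul_zero, zero_add] at k2
  exact ⟨(smul_eq_zero.1 k1).resolve_right (S.ne _ h0 h1 n),
    (smul_eq_zero.1 k2).resolve_right (S.ne _ h0 h1 n)⟩

theorem coef {a : ℤ} (h0 : 0 ≤ a + 1) (h1 : a + 1 < m) {x y v : A} {c α : ℚ}
    (hv : v ∈ S.U (a + 1)) (e : x * S.E (a + 1) = c • S.E (a + 1) + y * S.z a + v)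
    (h : ∀ n, α • S.u (a + 1) n + x * (S.z (a + 1) * S.u (a + 1) n) ∈ S.N a n) :
    α = 0 ∧ c = 0 := by
  obtain ⟨n, hn⟩ := S.fresh _ hv
  have := h n
  rw [← S.Ezu, ← mul_assoc, e, add_mul, add_mul, hn, add_zero, smul_mul_assoc, S.Ezu,
    ← add_assoc] at this
  exact S.indep h0 h1 n ((Submodule.add_mem_iff_left _ (mem_pl.2 ⟨y, (mul_assoc _ _ _).symm⟩)).1 this)

theorem I1 {a : ℤ} (h1 : a < m) (x : A) (h : ∀ n, x * (S.z a * S.u a n) = 0) : x * S.E a = 0 := by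
  rcases lt_or_ge a 0 with h0 | h0
  · rw [S.E_out (Or.inl h0), mul_zero]
  obtain ⟨a, rfl⟩ : ∃ b, a = b + 1 := ⟨a - 1, by ring⟩
  obtain ⟨c, y, v, hv, e⟩ := S.L1 a x
  obtain ⟨-, rfl⟩ := S.coef (α := 0) h0 h1 hv e fun n => by simp [h n]
  rw [zero_smul, zero_add] at e
  have k : ∀ n, (y * S.z a + v) * (S.z (a + 1) * S.u (a + 1) n) = 0 := fun n => by
    rw [← e, mul_assoc, S.Ezu, h]
  obtain ⟨n, hn⟩ := S.fresh _ hv
  have k1 := k n
  rw [add_mul, hn, add_zero, mul_assoc] at k1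
  have k2 : y * S.z a = 0 := by rw [← S.Ez, ← mul_assoc, S.lu a h1 n y k1, zero_mul]
  rw [k2, zero_add] at e k
  rw [e, S.coord0 _ hv k]

theorem I2 {a : ℤ} (h0 : 0 ≤ a + 1) (h1 : a + 1 + 1 = m) (x : A)
    (h : ∀ n, x * S.u (a + 1) n = 0) : x * S.E (a + 1 + 1) = 0 := by
  obtain ⟨c, y, v, hv, e⟩ := S.L1 (a + 1) x
  rw [S.coord0 _ hv fun n => by rw [S.u_out (Or.inr h1.ge), mul_zero, mul_zero], add_zero] at e
  have k : ∀ n, c • S.u (a + 1) n + y * (S.z (a + 1) * S.u (a + 1) n) = 0 := fun n => by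
    rw [← h n]
    conv_rhs => rw [← S.Eu, ← mul_assoc, e, add_mul, smul_mul_assoc, S.Eu, mul_assoc]
  obtain ⟨c', y', v', hv', e'⟩ := S.L1 a y
  obtain ⟨rfl, -⟩ := S.coef (α := c) h0 (by omega) hv' e' fun n => by simp [k n]
  simp only [zero_smul, zero_add] at k e
  rw [e, ← S.Ez, ← mul_assoc, S.I1 (by omega) y k, zero_mul]

/-- The annihilator of the simple module `A u / N`. -/
def Q (a : ℤ) (n : ℕ) : TwoSidedIdeal A :=
  .mk' {x | ∀ y, x * (y * S.u (a + 1) n) ∈ S.N a n} (fun y => by simp)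
    (fun hx hy w => by rw [add_mul]; exact add_mem (hx w) (hy w))
    (fun hx w => by rw [neg_mul]; exact neg_mem (hx w))
    (fun hx w => by rw [mul_assoc]; exact Submodule.smul_mem _ _ (hx w))
    (fun {x y} hx w => by rw [mul_assoc, ← mul_assoc y]; exact hx _)

theorem mem_Q {a : ℤ} {n : ℕ} {x : A} :
    x ∈ S.Q a n ↔ ∀ y, x * (y * S.u (a + 1) n) ∈ S.N a n := TwoSidedIdeal.mem_mk' ..

theorem Q_prime (a : ℤ) (n : ℕ) (x y : A) (h : ∀ r, x * r * y ∈ S.Q a n) :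
    x ∈ S.Q a n ∨ y ∈ S.Q a n := by
  refine or_iff_not_imp_right.2 fun hy => S.mem_Q.2 fun w => ?_
  obtain ⟨t, ht⟩ := not_forall.1 (mt S.mem_Q.2 hy)
  obtain ⟨r, hr⟩ := S.maxN a n (y * t) (by rwa [mul_assoc])
  have := add_mem ((S.N a n).smul_mem (x * w) hr) (S.mem_Q.1 (h (w * r)) t)
  simpa only [smul_eq_mul, mul_sub, mul_assoc, sub_add_cancel] using this

/-- The intersection of the ideals `Q`. -/
def rad : TwoSidedIdeal A := ⨅ p : ℤ × ℕ, S.Q p.1 p.2

theorem mem_rad {x : A} : x ∈ S.rad ↔ ∀ a n y, x * (y * S.u (a + 1) n) ∈ S.N a n := by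
  rw [rad, TwoSidedIdeal.mem_iInf]
  exact ⟨fun h a n => S.mem_Q.1 (h (a, n)), fun h p => S.mem_Q.2 (h p.1 p.2)⟩

theorem nil1 (k : ℕ) : ∀ l : List A, l.length = k → (∀ x ∈ l, x ∈ S.rad) → ∀ b : ℤ, b < k →
    b < m → ∀ n y, l.prod * (y * S.u b n) = 0 := by
  induction k with
  | zero => intro l _ _ b h _ n y; rw [S.u_out (Or.inl h), mul_zero, mul_zero]
  | succ k ih =>
    intro l hl h b h1 h2 n y
    obtain ⟨a, rfl⟩ : ∃ a, b = a + 1 := ⟨b - 1, by ring⟩
    rcases l.eq_nil_or_concat' with rfl | ⟨l, r, rfl⟩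
    · simp at hl
    obtain ⟨w, e⟩ := S.mem_rad.1 (h r (by simp)) a n y
    have e' : w * (S.z a * (S.z (a + 1) * S.u (a + 1) n)) = _ := e
    rw [List.prod_append, List.prod_singleton, mul_assoc, ← e', ← S.Ez a, mul_assoc (S.E a),
      ← mul_assoc, ← mul_assoc, S.I1 (by omega) _ fun n => ?_, zero_mul]
    rw [mul_assoc, ← mul_assoc w]
    exact ih l (by simpa using hl) (fun x hx => h x (by simp [hx])) a (by omega) (by omega) n _

theorem nil (hm : 1 ≤ m) (l : List A) (hl : l.length = m) (h : ∀ x ∈ l, x ∈ S.rad) :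
    l.prod = 0 := by
  rw [← mul_one l.prod, ← S.sum, Finset.mul_sum]
  refine Finset.sum_eq_zero fun i hi => ?_
  rcases (Finset.mem_Icc.1 hi).2.lt_or_eq with h1 | h1
  · exact S.I1 h1 _ fun n => S.nil1 m l hl h i h1 h1 n _
  · obtain ⟨a, rfl⟩ : ∃ a, i = a + 1 + 1 := ⟨i - 2, by ring⟩
    refine S.I2 (by omega) h1 _ fun n => ?_
    simpa using S.nil1 m l hl h (a + 1) (by omega) (by omega) n 1

theorem K2 (i : ℤ) : S.z i * S.z (i + 1) ∈ S.rad := by
  refine S.mem_rad.2 fun a n y => ?_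
  obtain ⟨α, β, h⟩ := S.L2 a n y
  rw [← sub_add_cancel (y * _) (α • S.u (a + 1) n + β • (S.z (a + 1) * S.u (a + 1) n)), mul_add,
    mul_add, mul_smul_comm, mul_smul_comm]
  refine add_mem (Submodule.smul_mem _ _ h)
    (add_mem (Submodule.smul_of_tower_mem _ _ ?_) (Submodule.smul_of_tower_mem _ _ ?_))
  · by_cases e : i = a
    · exact ⟨1, by rw [e, mul_assoc]; exact one_mul _⟩
    · rw [mul_assoc, S.orth (S.zE _) (S.Eu _ n) (by omega), mul_zero]
      exact zero_mem _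
  · by_cases e : i + 1 = a
    · exact ⟨S.z i, by rw [e, mul_assoc]; rfl⟩
    · rw [mul_assoc, S.orth (S.zE _) (S.Ezu _ n) (by omega), mul_zero]
      exact zero_mem _

theorem K1 {a : ℤ} (h0 : 0 ≤ a + 1) (h1 : a + 1 < m) (x : A) (h : x * S.z (a + 1) ∈ S.rad) :
    ∃ y, x * S.E (a + 1) - y * S.z a ∈ S.rad := by
  obtain ⟨c, y, v, hv, e⟩ := S.L1 a x
  have k : ∀ n, x * (S.z (a + 1) * S.u (a + 1) n) ∈ S.N a n := fun n => by
    simpa only [one_mul, mul_assoc] using S.mem_rad.1 h a n 1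
  obtain ⟨-, rfl⟩ := S.coef (α := 0) h0 h1 hv e fun n => by simpa using k n
  rw [zero_smul, zero_add] at e
  obtain ⟨s, -, e'⟩ := S.coord _ hv
  refine ⟨y, ?_⟩
  rw [e, add_sub_cancel_left, e']
  refine sum_mem fun n _ => ?_
  have k1 := k n
  rw [← S.Ezu, ← mul_assoc, e, add_mul] at k1
  obtain ⟨w, e1⟩ := (Submodule.add_mem_iff_right _ (mem_pl.2 ⟨y, (mul_assoc _ _ _).symm⟩)).1 k1
  rw [← e1]
  change w * (S.z a * (S.z (a + 1) * S.u (a + 1) n)) ∈ _
  rw [← mul_assoc (S.z a)]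
  exact S.rad.mul_mem_left _ _ (S.rad.mul_mem_right _ _ (S.K2 a))

theorem K3 {a : ℤ} (h0 : 0 ≤ a + 1) (h1 : a + 1 < m) (y : A) :
    S.z (a + 1) + S.z (a + 1) * (y * S.z (a + 1)) ∉ S.rad := fun h => by
  obtain ⟨c, w, v, hv, e⟩ := S.L1 a y
  obtain ⟨n, hn⟩ := S.fresh _ hv
  have k := S.mem_rad.1 h a n 1
  rw [one_mul, add_mul, mul_assoc, mul_assoc] at k
  have e1 : y * (S.z (a + 1) * S.u (a + 1) n) = c • (S.z (a + 1) * S.u (a + 1) n) +
      w * (S.z a * (S.z (a + 1) * S.u (a + 1) n)) := by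
    conv_lhs => rw [← S.Ezu, ← mul_assoc, e, add_mul, add_mul, hn, add_zero, smul_mul_assoc,
      S.Ezu, mul_assoc]
  rw [e1, mul_add, mul_smul_comm, S.orth (S.zE _) (S.Ezu _ n) (by omega), smul_zero, zero_add,
    ← mul_assoc _ w] at k
  have := (Submodule.add_mem_iff_left _ (mem_pl.2 ⟨_, rfl⟩)).1 k
  exact one_ne_zero (S.indep (α := 0) (β := 1) h0 h1 n (by simpa using this)).2

theorem lower {B : Type} [Ring B] (q : A →+* B) (hq : Function.Surjective q)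
    (hk : ∀ x, q x = 0 ↔ x ∈ S.rad) (k : ℕ) :
    k < m → ¬ HasProjectiveDimensionLT (ModuleCat.of B (pl (q (S.z k)))) k := by
  induction k using Nat.strong_induction_on with
  | _ k ih =>
  intro h hP
  rcases k with _ | _ | k
  · have := ModuleCat.subsingleton_of_isZero ((hasProjectiveDimensionLT_zero_iff_isZero _).1 hP)
    have e : q (S.z 0) = 0 := (one_mul _).symm.trans
      (congrArg Subtype.val (Subsingleton.elim (⟨_, 1, rfl⟩ : pl (q (S.z (0 : ℕ)))) 0))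
    refine S.K3 (a := -1) (by omega) (by omega) 0 ?_
    simpa using (hk _).1 e
  · obtain ⟨g, g1, g2⟩ := supp _ ((IsProjective.iff_projective _).2
      (projective_iff_hasProjectiveDimensionLT_one.2 hP))
    obtain ⟨g, rfl⟩ := hq g
    obtain ⟨y, hy⟩ := S.K1 (a := 0) (by omega) (by omega) (g - 1) ((hk _).1 (by
      rw [map_mul, map_sub, map_one, sub_mul, one_mul]
      exact sub_eq_zero.2 g1))
    have e := g2 (q (S.z 0)) (by rw [← map_mul]; exact (hk _).2 (S.K2 0))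
    rw [← map_mul, hk] at e
    refine S.K3 (a := -1) (by omega) (by omega) y ?_
    have := S.rad.sub_mem (S.rad.mul_mem_right _ (S.E (0 + 1)) e) (S.rad.mul_mem_left (S.z 0) _ hy)
    rwa [mul_sub, sub_mul, mul_sub, one_mul, S.zE, mul_assoc, sub_sub, sub_sub_cancel] at this
  · refine ih (k + 1) (by omega) (by omega) (shift (N := PUnit)
      ⟨(isSemisimpleModule_iff _ _).2 Subsingleton.instComplementedLattice, inferInstance⟩ 0
      (q (S.E ((k + 1 : ℕ) + 1))) _ _ ?_ ?_ ?_ ?_ ?_ k hP)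
    · rw [← map_mul, S.EE]
    · exact (map_mul q _ _).symm.trans (congrArg q (S.Ez _))
    · exact (map_mul q _ _).symm.trans ((hk _).2 (S.K2 _))
    · exact (map_mul q _ _).symm.trans (congrArg q (S.zE _))
    · intro s h1 h2
      obtain ⟨x, rfl⟩ := hq s
      obtain ⟨y, hy⟩ := S.K1 (a := (k + 1 : ℕ)) (by omega) (by omega) x
        ((hk _).1 ((map_mul q _ _).trans h2))
      rw [← hk, map_sub, map_mul, map_mul, h1, sub_eq_zero] at hy
      exact ⟨q y, 0, by rw [map_zero, add_zero]; exact hy⟩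

end Pool.Agent.MP_f67ce1_al.TS.Sys
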