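import Pool.Agent.MP_f67ce1_al.TS.Lem

/-! Systems of generators and relations that make a ring hereditary on both sides. -/

set_option autoImplicit false

namespace Pool.Agent.MP_f67ce1_al.TS

open SD MulOpposite

/-- Idempotents `E i`, arrows `z a` and local inverses `u a n` of the arrows. -/
structure Sys (A : Type) [Ring A] [Algebra ℚ A] (m : ℕ) where
  /-- The idempotents. -/
  E : ℤ → A
  /-- The arrows. -/
  z : ℤ → A
  /-- The local inverses. -/
  u : ℤ → ℕ → A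
  EE : ∀ i, E i * E i = E i
  EE' : ∀ i j, i ≠ j → E i * E j = 0
  sum : ∑ i ∈ Finset.Icc (0 : ℤ) m, E i = 1
  Ez : ∀ a, E a * z a = z a
  zE : ∀ a, z a * E (a + 1) = z a
  Eu : ∀ a n, E (a + 1) * u a n = u a n
  uE : ∀ a n, u a n * E a = u a n
  uzu : ∀ a n, u a n * (z a * u a n) = u a n
  uzu' : ∀ a n n', n ≠ n' → u a n * (z a * u a n') = 0
  uu : ∀ a n n', u (a + 1) n * u a n' = 0
  gen : ∀ S : Subalgebra ℚ A, (∀ i, E i ∈ S) → (∀ a, z a ∈ S) → (∀ a n, u a n ∈ S) → ∀ x, x ∈ S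
  lz : ∀ a : ℤ, a < m → ∀ x, x * z a = 0 → x * E a = 0
  lu : ∀ a : ℤ, a + 1 < m → ∀ n x, x * (z a * (z (a + 1) * u (a + 1) n)) = 0 → x * E a = 0
  rz : ∀ a : ℤ, 0 ≤ a → ∀ x, z a * x = 0 → E (a + 1) * x = 0
  ru : ∀ a : ℤ, 0 ≤ a → ∀ n x, u a n * z a * z (a + 1) * x = 0 → E (a + 1 + 1) * x = 0
  ne : ∀ a : ℤ, 0 ≤ a → a < m → ∀ n, u a n ≠ 0

namespace Sys

variable {A : Type} [Ring A] [Algebra ℚ A] {m : ℕ} (S : Sys A m)

/-- The opposite system. -/
def opp : Sys Aᵐᵒᵖ m where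
  E i := op (S.E (m - i))
  z a := op (S.z (m - 1 - a))
  u a n := op (S.u (m - 1 - a) n)
  EE i := congrArg op (S.EE _)
  EE' i j h := congrArg op (S.EE' _ _ (by omega))
  sum := by
    rw [← Finset.op_sum, ← op_one, ← S.sum]
    congr 1
    refine Finset.sum_bij' (fun i _ => m - i) (fun i _ => m - i) ?_ ?_ ?_ ?_ ?_
    all_goals simp only [Finset.mem_Icc]
    all_goals intros
    all_goals first | omega | trivial
  Ez a := by
    rw [show (m : ℤ) - a = m - 1 - a + 1 by ring]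
    exact congrArg op (S.zE _)
  zE a := by
    rw [show (m : ℤ) - (a + 1) = m - 1 - a by ring]
    exact congrArg op (S.Ez _)
  Eu a n := by
    rw [show (m : ℤ) - (a + 1) = m - 1 - a by ring]
    exact congrArg op (S.uE _ _)
  uE a n := by
    rw [show (m : ℤ) - a = m - 1 - a + 1 by ring]
    exact congrArg op (S.Eu _ _)
  uzu a n := congrArg op ((mul_assoc _ _ _).trans (S.uzu _ _))
  uzu' a n n' h := congrArg op ((mul_assoc _ _ _).trans (S.uzu' _ _ _ h.symm))
  uu a n n' := by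
    rw [show (m : ℤ) - 1 - a = m - 1 - (a + 1) + 1 by ring]
    exact congrArg op (S.uu _ _ _)
  gen T h1 h2 h3 x := S.gen T.unop (fun i => by simpa using h1 (m - i))
    (fun a => by simpa using h2 (m - 1 - a)) (fun a n => by simpa using h3 (m - 1 - a) n) x.unop
  lz a h x hx := by
    rw [show (m : ℤ) - a = m - 1 - a + 1 by ring]
    exact congrArg op (S.rz _ (by omega) x.unop (congrArg unop hx))
  lu a h n x hx := by
    rw [show (m : ℤ) - 1 - a = m - 1 - (a + 1) + 1 by ring] at hx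
    rw [show (m : ℤ) - a = m - 1 - (a + 1) + 1 + 1 by ring]
    exact congrArg op (S.ru _ (by omega) n x.unop (congrArg unop hx))
  rz a h x hx := by
    rw [show (m : ℤ) - (a + 1) = m - 1 - a by ring]
    exact congrArg op (S.lz _ (by omega) x.unop (congrArg unop hx))
  ru a h n x hx := by
    rw [show (m : ℤ) - 1 - a = m - 1 - (a + 1) + 1 by ring] at hx
    rw [show (m : ℤ) - (a + 1 + 1) = m - 1 - (a + 1) by ring]
    exact congrArg op (S.lu _ (by omega) n x.unop (congrArg unop hx))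
  ne a h1 h2 n h := S.ne _ (by omega) (by omega) n (congrArg unop h)

theorem orth {x y : A} {i j : ℤ} (hx : x * S.E i = x) (hy : S.E j * y = y) (h : i ≠ j) :
    x * y = 0 := by
  rw [← hx, ← hy, mul_assoc, ← mul_assoc (S.E i), S.EE' i j h, zero_mul, mul_zero]

theorem E_out {i : ℤ} (h : i < 0 ∨ m < i) : S.E i = 0 := by
  rw [← mul_one (S.E i), ← S.sum, Finset.mul_sum]
  exact Finset.sum_eq_zero fun j hj => S.EE' i j (by rw [Finset.mem_Icc] at hj; omega)

theorem u_out {a : ℤ} (h : a < 0 ∨ m ≤ a) (n : ℕ) : S.u a n = 0 := by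
  rcases h with h | h
  · rw [← S.uE, S.E_out (Or.inl h), mul_zero]
  · rw [← S.Eu, S.E_out (Or.inr (by omega)), zero_mul]

theorem Ezu (a : ℤ) (n : ℕ) : S.E a * (S.z a * S.u a n) = S.z a * S.u a n := by
  rw [← mul_assoc, S.Ez]

theorem span2 (N : Submodule A A) (v w : A)
    (h : ∀ g, (∃ i, g = S.E i) ∨ (∃ i, g = S.z i) ∨ (∃ i n, g = S.u i n) →
      (g * v ∈ N ∨ g * v = v ∨ g * v = w) ∧ (g * w ∈ N ∨ g * w = v ∨ g * w = w)) (x : A) :
    ∃ α β : ℚ, x * v - (α • v + β • w) ∈ N := by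
  let B : Submodule ℚ A := N.restrictScalars ℚ ⊔ Submodule.span ℚ {v, w}
  let T : Subalgebra ℚ A :=
    { carrier := {x | ∀ b ∈ B, x * b ∈ B}
      mul_mem' := fun hx hy b hb => by rw [mul_assoc]; exact hx _ (hy b hb)
      add_mem' := fun hx hy b hb => by rw [add_mul]; exact B.add_mem (hx b hb) (hy b hb)
      algebraMap_mem' := fun c b hb => by rw [← Algebra.smul_def]; exact B.smul_mem c hb }
  have hv : v ∈ B := Submodule.mem_sup_right (Submodule.subset_span (by simp))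
  have hw : w ∈ B := Submodule.mem_sup_right (Submodule.subset_span (by simp))
  have hB : ∀ y, y ∈ N ∨ y = v ∨ y = w → y ∈ B := by
    rintro y (h | rfl | rfl)
    exacts [Submodule.mem_sup_left h, hv, hw]
  have hT : ∀ g, (∃ i, g = S.E i) ∨ (∃ i, g = S.z i) ∨ (∃ i n, g = S.u i n) → g ∈ T := by
    intro g hg b hb
    obtain ⟨y, hy, t, ht, rfl⟩ := Submodule.mem_sup.1 hb
    obtain ⟨α, β, rfl⟩ := Submodule.mem_span_pair.1 ht
    rw [mul_add, mul_add, mul_smul_comm, mul_smul_comm]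
    exact B.add_mem (Submodule.mem_sup_left (N.smul_mem g hy))
      (B.add_mem (B.smul_mem _ (hB _ (h g hg).1)) (B.smul_mem _ (hB _ (h g hg).2)))
  obtain ⟨y, hy, t, ht, e⟩ := Submodule.mem_sup.1 (S.gen T (fun i => hT _ (.inl ⟨i, rfl⟩))
    (fun i => hT _ (.inr (.inl ⟨i, rfl⟩))) (fun i n => hT _ (.inr (.inr ⟨i, n, rfl⟩))) x v hv)
  obtain ⟨α, β, rfl⟩ := Submodule.mem_span_pair.1 ht
  exact ⟨α, β, by rw [← e, add_sub_cancel_right]; exact hy⟩

/-- The left ideal spanned by the local inverses of one arrow. -/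
def U (a : ℤ) : Submodule A A := Submodule.span A (Set.range (S.u a))

/-- The maximal submodule of `A u`. -/
abbrev N (a : ℤ) (n : ℕ) : Submodule A A := pl (S.z a * (S.z (a + 1) * S.u (a + 1) n))

theorem L1 (a : ℤ) (x : A) : ∃ (c : ℚ) (y v : A), v ∈ S.U (a + 1) ∧
    x * S.E (a + 1) = c • S.E (a + 1) + y * S.z a + v := by
  obtain ⟨α, β, h⟩ := S.span2 (pl (S.z a) ⊔ S.U (a + 1)) (S.E (a + 1)) 0 (fun g hg => by
    refine ⟨?_, .inr (.inr (mul_zero g))⟩
    rcases hg with ⟨i, rfl⟩ | ⟨i, rfl⟩ | ⟨i, n, rfl⟩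
    · by_cases e : i = a + 1
      · exact .inr (.inl (e ▸ S.EE i))
      · exact .inr (.inr (S.EE' _ _ e))
    · by_cases e : i = a
      · exact .inl (Submodule.mem_sup_left ⟨1, by rw [e, S.zE]; exact one_mul _⟩)
      · exact .inr (.inr (S.orth (S.zE i) (S.EE _) (by omega)))
    · by_cases e : i = a + 1
      · exact .inl (Submodule.mem_sup_right (Submodule.subset_span ⟨n, by rw [e, S.uE]⟩))
      · exact .inr (.inr (S.orth (S.uE i n) (S.EE _) e))) x
  obtain ⟨_, ⟨y, rfl⟩, v, hv, e⟩ := Submodule.mem_sup.1 h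
  refine ⟨α, y, v, hv, ?_⟩
  rw [smul_zero, add_zero, eq_sub_iff_add_eq'] at e
  rw [← e, add_assoc]
  rfl

theorem L2 (a : ℤ) (n : ℕ) (x : A) : ∃ α β : ℚ, x * S.u (a + 1) n -
    (α • S.u (a + 1) n + β • (S.z (a + 1) * S.u (a + 1) n)) ∈ S.N a n := by
  have z0 : ∀ {y v w : A}, y = 0 → y ∈ S.N a n ∨ y = v ∨ y = w := fun h =>
    .inl (h ▸ Submodule.zero_mem _)
  refine S.span2 _ _ _ (fun g hg => ?_) x
  rcases hg with ⟨i, rfl⟩ | ⟨i, rfl⟩ | ⟨i, k, rfl⟩
  · constructor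
    · by_cases e : i = a + 1 + 1
      · exact .inr (.inl (e ▸ S.Eu _ n))
      · exact z0 (S.orth (S.EE i) (S.Eu _ n) e)
    · by_cases e : i = a + 1
      · exact .inr (.inr (e ▸ S.Ezu _ n))
      · exact z0 (S.orth (S.EE i) (S.Ezu _ n) e)
  · constructor
    · by_cases e : i = a + 1
      · exact .inr (.inr (e ▸ rfl))
      · exact z0 (S.orth (S.zE i) (S.Eu _ n) (by omega))
    · by_cases e : i = a
      · exact .inl ⟨1, by rw [e]; exact one_mul _⟩
      · exact z0 (S.orth (S.zE i) (S.Ezu _ n) (by omega))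
  · constructor
    · by_cases e : i = a + 1 + 1
      · exact z0 (e ▸ S.uu _ k n)
      · exact z0 (S.orth (S.uE i k) (S.Eu _ n) e)
    · by_cases e : i = a + 1
      · by_cases e' : k = n
        · exact .inr (.inl (by rw [e, e', S.uzu]))
        · exact z0 (e ▸ S.uzu' _ k n e')
      · exact z0 (S.orth (S.uE i k) (S.Ezu _ n) e)

theorem coord (a : ℤ) {v : A} (hv : v ∈ S.U a) : ∃ s : Finset ℕ,
    (∀ n ∉ s, v * (S.z a * S.u a n) = 0) ∧ v = ∑ n ∈ s, v * (S.z a * S.u a n) := by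
  obtain ⟨c, rfl⟩ := Finsupp.mem_span_range_iff_exists_finsupp.1 hv
  have e : ∀ n, (c.sum fun i r => r • S.u a i) * (S.z a * S.u a n) = c n * S.u a n := fun n => by
    rw [Finsupp.sum_mul, Finsupp.sum_eq_single n]
    · rw [smul_eq_mul, mul_assoc, S.uzu]
    · intro k _ hk
      rw [smul_eq_mul, mul_assoc, S.uzu' a k n hk, mul_zero]
    · simp
  refine ⟨c.support, fun n hn => by rw [e, Finsupp.notMem_support_iff.1 hn, zero_mul], ?_⟩
  simp only [e]
  rfl

theorem fresh (a : ℤ) {v : A} (hv : v ∈ S.U a) : ∃ n, v * (S.z a * S.u a n) = 0 := by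
  obtain ⟨s, h, -⟩ := S.coord a hv
  obtain ⟨n, hn⟩ := Infinite.exists_notMem_finset s
  exact ⟨n, h n hn⟩

theorem coord0 (a : ℤ) {v : A} (hv : v ∈ S.U a) (h : ∀ n, v * (S.z a * S.u a n) = 0) : v = 0 := by
  obtain ⟨s, -, e⟩ := S.coord a hv
  rw [e]
  exact Finset.sum_eq_zero fun n _ => h n

theorem maxN (a : ℤ) (n : ℕ) (x : A) (hx : x * S.u (a + 1) n ∉ S.N a n) :
    ∃ r, S.u (a + 1) n - r * (x * S.u (a + 1) n) ∈ S.N a n := by
  obtain ⟨α, β, h⟩ := S.L2 a n x
  by_cases hβ : β = 0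
  · have hα : α ≠ 0 := by
      rintro rfl
      simp only [hβ, zero_smul, add_zero, sub_zero] at h
      exact hx h
    refine ⟨algebraMap ℚ A α⁻¹, ?_⟩
    have := (S.N a n).neg_mem ((S.N a n).smul_mem (algebraMap ℚ A α⁻¹) h)
    rwa [hβ, zero_smul, add_zero, smul_eq_mul, mul_sub, neg_sub, ← Algebra.smul_def, smul_smul,
      inv_mul_cancel₀ hα, one_smul] at this
  · refine ⟨β⁻¹ • S.u (a + 1) n, ?_⟩
    have := (S.N a n).neg_mem ((S.N a n).smul_mem (β⁻¹ • S.u (a + 1) n) h)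
    rwa [smul_eq_mul, mul_sub, neg_sub, mul_add, smul_mul_smul_comm, smul_mul_smul_comm,
      S.orth (S.uE _ n) (S.Eu _ n) (by omega), smul_zero, zero_add, inv_mul_cancel₀ hβ, one_smul,
      S.uzu] at this

theorem her_step (a : ℤ) (ha : a < m) (h : Her A (pl (S.E a))) : Her A (pl (S.E (a + 1))) := by
  have hu : ∀ n, Her A (pl (S.u (a + 1) n)) := fun n => by
    rcases lt_or_ge (a + 1) m with h1 | h1
    · refine her_cov (S.N a n) _ (her_pl _ _ (S.EE a) (by rw [← mul_assoc, S.Ez]) (S.lu a h1 n) h)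
        (proj_pl (S.u (a + 1) n * S.z (a + 1)) _ (by rw [mul_assoc, S.uzu])
          fun x hx => by rw [← mul_assoc, hx, zero_mul]) ?_
      rintro _ ⟨x, rfl⟩ hx _ ⟨y, rfl⟩
      obtain ⟨r, hr⟩ := S.maxN a n x hx
      refine ⟨y * r, ?_⟩
      have := (S.N a n).smul_mem y hr
      rwa [smul_eq_mul, mul_sub, ← mul_assoc y r] at this
    · rw [S.u_out (Or.inr h1)]
      exact her_zero
  have hU : Her A (S.U (a + 1)) := by
    refine her_coords (fun n => LinearMap.toSpanSingleton A A (S.z (a + 1) * S.u (a + 1) n) ∘ₗ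
      (S.U (a + 1)).subtype) _ hu (fun n x => ⟨x * S.z (a + 1), mul_assoc _ _ _⟩) (fun x => ?_)
      fun x hx => Subtype.ext (S.coord0 _ x.2 hx)
    obtain ⟨s, h, -⟩ := S.coord _ x.2
    exact s.finite_toSet.subset fun n hn => by_contra fun hs => hn (h n hs)
  refine her_cov _ _ (her_sup _ _ (her_pl _ _ (S.EE a) (S.Ez a) (S.lz a ha) h) hU ?_)
    (proj_pl _ _ (S.EE _) fun _ h => h) ?_
  · rintro _ ⟨y, rfl⟩ hv
    rcases lt_or_ge (a + 1) m with h1 | h1
    · obtain ⟨n, hn⟩ := S.fresh _ hv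
      change y * S.z a = 0
      rw [← S.Ez, ← mul_assoc, S.lu a h1 n y ((mul_assoc _ _ _).symm.trans hn), zero_mul]
    · exact S.coord0 _ hv fun n => by rw [S.u_out (Or.inr h1), mul_zero, mul_zero]
  · rintro _ ⟨x, rfl⟩ hx _ ⟨y, rfl⟩
    obtain ⟨c, x₁, v, hv, e⟩ := S.L1 a x
    obtain ⟨c', y₁, v', hv', e'⟩ := S.L1 a y
    have k : ∀ (r t : A), t ∈ S.U (a + 1) → r * S.z a + t ∈ pl (S.z a) ⊔ S.U (a + 1) :=
      fun r t ht => Submodule.add_mem_sup ⟨r, rfl⟩ ht
    have hc : c ≠ 0 := by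
      rintro rfl
      rw [zero_smul, zero_add] at e
      exact hx (e ▸ k _ _ hv :)
    refine ⟨algebraMap ℚ A (c' / c), ?_⟩
    change y * S.E (a + 1) - algebraMap ℚ A (c' / c) * (x * S.E (a + 1)) ∈ _
    rw [e, e', add_assoc, add_assoc, mul_add, ← Algebra.smul_def, smul_smul, div_mul_cancel₀ _ hc,
      add_sub_add_left_eq_sub]
    exact Submodule.sub_mem _ (k _ _ hv') (Submodule.smul_mem _ _ (k _ _ hv))

include S in
theorem her : Her A A := by
  have h : ∀ n : ℕ, Her A (pl (S.E n)) := fun n => by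
    induction n with
    | zero =>
      refine S.her_step (-1) (by omega) ?_
      rw [S.E_out (Or.inl (by omega))]
      exact her_zero
    | succ n ih =>
      rcases lt_or_ge (n : ℤ) m with h1 | h1
      · exact S.her_step n h1 ih
      · rw [S.E_out (Or.inr (by omega))]
        exact her_zero
  refine her_coords (fun n => LinearMap.toSpanSingleton A A (S.E n)) _ h (fun n x => ⟨x, rfl⟩)
    (fun x => (Set.finite_le_nat m).subset fun n hn => by_contra fun hs => hn ?_) fun x hx => ?_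
  · rw [S.E_out (Or.inr (by simpa using hs))]
    simp
  · rw [← mul_one x, ← S.sum, Finset.mul_sum]
    refine Finset.sum_eq_zero fun i hi => ?_
    obtain ⟨n, rfl⟩ := Int.eq_ofNat_of_zero_le (Finset.mem_Icc.1 hi).1
    exact hx n

end Sys

end Pool.Agent.MP_f67ce1_al.TS
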