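import Pool.Agent.MP_f67ce1_al.SD.Gen

/-! The upper bound for rings that are hereditary on both sides. -/

set_option autoImplicit false

namespace Pool.Agent.MP_f67ce1_al.TS

open CategoryTheory SD

variable {R A : Type} [Ring R] [Ring A]

theorem supp (a : A) (h : Module.Projective A (pl a)) :
    ∃ g, g * a = a ∧ ∀ x, x * a = 0 → x * g = 0 := by
  let f := (LinearMap.toSpanSingleton A A a).rangeRestrict
  obtain ⟨s, hs⟩ := Module.projective_lifting_property f LinearMap.id
    (LinearMap.surjective_rangeRestrict _)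
  refine ⟨s (f 1), ?_, fun y hy => ?_⟩
  · exact (congrArg Subtype.val (LinearMap.congr_fun hs (f 1))).trans (one_mul a)
  · have e : y • f 1 = 0 := Subtype.ext (by
      change y * (1 * a) = 0
      rw [one_mul, hy])
    rw [← smul_eq_mul, ← map_smul, e, map_zero]

theorem step (q : R →+* A) (hq : Function.Surjective q) {X M : Type} [AddCommGroup X]
    [Module R X] [AddCommGroup M] [Module A M] [Module.Projective R X] (g : X →ₛₗ[q] M)
    (hg : Function.Surjective g) :
    ∃ (K : Type) (_ : AddCommGroup K) (_ : Module A K) (g' : LinearMap.ker g →ₛₗ[q] K),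
      Function.Surjective g' ∧
      (∀ y, g' y = 0 ↔ (y : X) ∈ RingHom.ker q • (⊤ : Submodule R X)) ∧
      ∀ m, HasProjectiveDimensionLT (ModuleCat.of A K) m →
        HasProjectiveDimensionLT (ModuleCat.of A M) (m + 1) := by
  let N : Submodule R X := RingHom.ker q • ⊤
  let : SMul A (X ⧸ N) := ⟨fun a p => Function.surjInv hq a • p⟩
  have hs : ∀ (c : R) (p : X ⧸ N), q c • p = c • p := fun c p => by
    obtain ⟨x, rfl⟩ := N.mkQ_surjective p
    change Function.surjInv hq (q c) • N.mkQ x = c • N.mkQ x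
    rw [← sub_eq_zero, ← sub_smul, ← map_smul, Submodule.mkQ_apply, Submodule.Quotient.mk_eq_zero]
    exact Submodule.smul_mem_smul
      (by rw [RingHom.mem_ker, map_sub, Function.surjInv_eq hq, sub_self]) trivial
  let : Module A (X ⧸ N) := Function.Surjective.moduleLeft q hq hs
  let π : X →ₛₗ[q] X ⧸ N :=
    { toFun := N.mkQ, map_add' := N.mkQ.map_add
      map_smul' := fun r x => (N.mkQ.map_smul r x).trans (hs r _).symm }
  have hP : Module.Projective A (X ⧸ N) :=
    proj_of_semilinear q hq π N.mkQ_surjective fun x hx => (Submodule.Quotient.mk_eq_zero N).1 hx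
  have hN : N ≤ LinearMap.ker g := Submodule.smul_le.2 fun r hr n _ => by
    rw [LinearMap.mem_ker, g.map_smulₛₗ, (RingHom.mem_ker).1 hr, zero_smul]
  let φ : (X ⧸ N) →ₗ[A] M :=
    { toFun := N.liftQ g hN, map_add' := (N.liftQ g hN).map_add
      map_smul' := fun a p => by
        obtain ⟨r, rfl⟩ := hq a
        rw [hs, (N.liftQ g hN).map_smulₛₗ]
        rfl }
  have hφ : Function.Surjective φ := fun m => by
    obtain ⟨x, rfl⟩ := hg m
    exact ⟨N.mkQ x, rfl⟩
  refine ⟨LinearMap.ker φ, inferInstance, inferInstance,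
    LinearMap.codRestrict _ (π.domRestrict (LinearMap.ker g)) fun y => y.2, ?_, ?_, ?_⟩
  · rintro ⟨p, hp⟩
    obtain ⟨x, rfl⟩ := N.mkQ_surjective p
    exact ⟨⟨x, hp⟩, rfl⟩
  · intro y
    exact Subtype.ext_iff.trans (Submodule.Quotient.mk_eq_zero N)
  · intro m hm
    exact (LinearMap.shortExact_shortComplexKer hφ).hasProjectiveDimensionLT_X₃ m hm (pd_one hP m)

/-- Splitting off the part of `X` that lies in `Z F`, `Z` the annihilator of `X`. -/
theorem split (I : Ideal R) (hs : ∀ a : R, ∃ e, a * e = a ∧ ∀ x, a * x = 0 → e * x = 0)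
    (hp : ∀ a : R, (∀ r, a * r * a = 0) → a ∈ I) {F : Type} [AddCommGroup F] [Module R F]
    (hF : Her R F) (X : Submodule R F) :
    ∃ θ : X →ₗ[R] X, (∀ x : X, (x : F) - θ x ∈ I • (⊤ : Submodule R F)) ∧
      ∀ x : X, ((θ x : X) : F) ∈ X.annihilator • (⊤ : Submodule R F) → θ x = 0 := by
  obtain ⟨s, hs1⟩ := Module.projective_def.1 hF.proj
  have sep : ∀ y : F, (∀ i, s y i ∈ I) → y ∈ I • (⊤ : Submodule R F) := fun y hy => by
    rw [← hs1 y, Finsupp.linearCombination_apply]
    exact Submodule.sum_mem _ fun i _ => Submodule.smul_mem_smul (hy i) trivial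
  have sep0 : ∀ y : F, (∀ i, s y i = 0) → y = 0 := fun y hy => by
    rw [← hs1 y, show s y = 0 from Finsupp.ext hy, map_zero]
  let N : Submodule R F := X.annihilator • ⊤
  let W : Submodule R F := X ⊔ N
  have := hF W
  let a : X →ₗ[R] F ⧸ N := N.mkQ ∘ₗ X.subtype
  obtain ⟨θ, hθ⟩ := Module.projective_lifting_property a.rangeRestrict
    (LinearMap.codRestrict (LinearMap.range a) (N.mkQ ∘ₗ W.subtype) (by
      rintro ⟨w, hw⟩
      obtain ⟨x, hx, y, hy, rfl⟩ := Submodule.mem_sup.1 hw
      refine ⟨⟨x, hx⟩, (Submodule.Quotient.eq N).2 ?_⟩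
      change x - (x + y) ∈ N
      simpa using hy)) (LinearMap.surjective_rangeRestrict _)
  have h1 : ∀ w : W, ((θ w : X) : F) - w ∈ N := fun w =>
    (Submodule.Quotient.eq N).1 (congrArg Subtype.val (LinearMap.congr_fun hθ w))
  have h2 : ∀ y ∈ N, ∃ hy : y ∈ W, θ ⟨y, hy⟩ = 0 := fun y hy => by
    refine Submodule.smul_induction_on (p := fun y => ∃ hy : y ∈ W, θ ⟨y, hy⟩ = 0) hy
      (fun r hr n _ => ?_) ?_
    · obtain ⟨e, he1, he2⟩ := hs r
      have hr' := Submodule.mem_annihilator.1 hr
      have he : e ∈ X.annihilator := Submodule.mem_annihilator.2 fun x hx => sep0 _ fun i => by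
        rw [map_smul, Finsupp.smul_apply, smul_eq_mul]
        refine he2 _ ?_
        rw [← smul_eq_mul, ← Finsupp.smul_apply, ← map_smul, hr' x hx, map_zero, Finsupp.zero_apply]
      have hw : e • n ∈ W := Submodule.mem_sup_right (Submodule.smul_mem_smul he trivial)
      refine ⟨Submodule.mem_sup_right (Submodule.smul_mem_smul hr trivial), ?_⟩
      have e1 : (⟨r • n, Submodule.mem_sup_right (Submodule.smul_mem_smul hr trivial)⟩ : W) =
          r • ⟨e • n, hw⟩ := Subtype.ext (by
        change r • n = r • e • n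
        rw [← mul_smul, he1])
      rw [e1, map_smul]
      exact Subtype.ext (hr' _ (θ ⟨e • n, hw⟩).2)
    · rintro x y ⟨hx, h1⟩ ⟨hy, h2⟩
      refine ⟨W.add_mem hx hy, ?_⟩
      have : (⟨x + y, W.add_mem hx hy⟩ : W) = ⟨x, hx⟩ + ⟨y, hy⟩ := rfl
      rw [this, map_add, h1, h2, add_zero]
  have h3 : ∀ y ∈ N, ∀ i, s y i ∈ X.annihilator := fun y hy i => by
    refine Submodule.smul_induction_on (p := fun y => s y i ∈ X.annihilator) hy
      (fun r hr n _ => ?_) fun x y h1 h2 => ?_
    · rw [map_smul, Finsupp.smul_apply, smul_eq_mul]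
      refine Submodule.mem_annihilator.2 fun x hx => ?_
      rw [mul_smul]
      exact Submodule.mem_annihilator.1 hr _ (X.smul_mem _ hx)
    · rw [map_add, Finsupp.add_apply]
      exact add_mem h1 h2
  let j : X →ₗ[R] W := Submodule.inclusion le_sup_left
  refine ⟨θ ∘ₗ j, fun x => sep _ fun i => hp _ fun r => ?_, fun x hx => ?_⟩
  · have hN : (x : F) - θ (j x) ∈ N := by
      rw [← neg_sub]
      exact N.neg_mem (h1 (j x))
    have := Submodule.mem_annihilator.1 (h3 _ hN i) _
      (X.smul_mem r (X.sub_mem x.2 (θ (j x)).2))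
    have := congrArg (fun y => s y i) this
    simp only [map_smul, Finsupp.smul_apply, smul_eq_mul, map_zero, Finsupp.zero_apply,
      ← mul_assoc] at this
    exact this
  · obtain ⟨_, e1⟩ := h2 _ hx
    obtain ⟨_, e2⟩ := h2 _ (h1 (j x))
    have e3 : θ (j (θ (j x)) - j x) = 0 := e2
    have e4 : θ (j (θ (j x))) = 0 := e1
    rw [map_sub, e4, zero_sub, neg_eq_zero] at e3
    exact e3

theorem core (q : R →+* A) (hq : Function.Surjective q)
    (hs : ∀ a : R, ∃ e, a * e = a ∧ ∀ x, a * x = 0 → e * x = 0)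
    (hp : ∀ a : R, (∀ r, a * r * a = 0) → q a = 0) (k : ℕ) :
    ∀ (F M : Type) [AddCommGroup F] [Module R F] [AddCommGroup M] [Module A M]
      (X : Submodule R F) (g : X →ₛₗ[q] M), Her R F → Function.Surjective g →
      (∀ x, g x = 0 ↔ (x : F) ∈ RingHom.ker q • (⊤ : Submodule R F)) →
      (∀ l : List R, l.length = k → (∀ x ∈ l, q x = 0) → ∀ y ∈ X, l.prod • y = 0) →
      HasProjectiveDimensionLT (ModuleCat.of A M) k := by
  induction k with
  | zero =>
    intro F M _ _ _ _ X g _ hg _ h
    have : Subsingleton M := ⟨fun a b => by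
      obtain ⟨x, rfl⟩ := hg a
      obtain ⟨y, rfl⟩ := hg b
      have e : ∀ z : X, z = 0 := fun z => Subtype.ext (by simpa using h [] rfl (by simp) z z.2)
      rw [e x, e y]⟩
    exact (ModuleCat.isZero_of_subsingleton _).hasProjectiveDimensionLT_zero
  | succ k ih =>
    intro F M _ _ _ _ X g hF hg hk h
    obtain ⟨θ, h1, h2⟩ := split (RingHom.ker q) hs hp hF X
    have hY := (hF.of_injective _ X.injective_subtype).of_injective _
      (LinearMap.range θ).injective_subtype
    have := hY.proj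
    obtain ⟨K, _, _, g', s', k', p'⟩ := step q hq (g.domRestrict (LinearMap.range θ)) (fun m => by
      obtain ⟨x, rfl⟩ := hg m
      refine ⟨⟨θ x, x, rfl⟩, ?_⟩
      change g (θ x) = g x
      rw [eq_comm, ← sub_eq_zero, ← map_sub]
      exact (hk _).2 (h1 x))
    refine p' _ (ih _ _ _ g' hY s' k' fun l hl h0 y hy => ?_)
    obtain ⟨x, hx⟩ := (l.prod • y).2
    apply Subtype.ext
    rw [← hx]
    refine h2 x ?_
    rw [hx]
    change l.prod • ((y : X) : F) ∈ _
    refine Submodule.smul_induction_on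
      (p := fun w => l.prod • w ∈ X.annihilator • (⊤ : Submodule R F)) ((hk _).1 hy)
      (fun r hr n _ => ?_) fun x y h1 h2 => by rw [smul_add]; exact add_mem h1 h2
    rw [← mul_smul]
    refine Submodule.smul_mem_smul (Submodule.mem_annihilator.2 fun w hw => ?_) trivial
    have := h (l ++ [r]) (by simp [hl]) (by
      intro x hx
      rcases List.mem_append.1 hx with e | e
      · exact h0 x e
      · rw [List.mem_singleton.1 e]
        exact hr) w hw
    rwa [List.prod_append, List.prod_singleton] at this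

/-- The upper bound. -/
theorem upper (q : R →+* A) (hq : Function.Surjective q) (hR : Her R R) (hR' : Her Rᵐᵒᵖ Rᵐᵒᵖ)
    (hp : ∀ a : R, (∀ r, a * r * a = 0) → q a = 0) (n : ℕ)
    (h : ∀ l : List R, l.length = n → (∀ x ∈ l, q x = 0) → l.prod = 0) (L : Submodule A A) :
    HasProjectiveDimensionLT (ModuleCat.of A L) n := by
  let X : Submodule R R := Ideal.comap q L
  let g : X →ₛₗ[q] L :=
    { toFun := fun x => ⟨q x, x.2⟩, map_add' := fun x y => Subtype.ext (q.map_add _ _)
      map_smul' := fun r x => Subtype.ext (q.map_mul _ _) }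
  refine core q hq (fun a => ?_) hp n R L X g hR ?_ (fun x => ?_) fun l hl h0 y _ => ?_
  · obtain ⟨e, h1, h2⟩ := supp (MulOpposite.op a) (hR' _)
    exact ⟨e.unop, congrArg MulOpposite.unop h1, fun x hx => congrArg MulOpposite.unop
      (h2 (MulOpposite.op x) (congrArg MulOpposite.op hx))⟩
  · rintro ⟨z, hz⟩
    obtain ⟨x, rfl⟩ := hq z
    exact ⟨⟨x, hz⟩, rfl⟩
  · refine Subtype.ext_iff.trans ⟨fun hx => ?_, fun hx => ?_⟩
    · rw [← mul_one (x : R), ← smul_eq_mul]
      exact Submodule.smul_mem_smul hx trivial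
    · refine Submodule.smul_induction_on (p := fun w => q w = 0) hx (fun r hr n _ => ?_)
        fun x y h1 h2 => by rw [map_add, h1, h2, add_zero]
      rw [smul_eq_mul, map_mul, (RingHom.mem_ker).1 hr, zero_mul]
  · rw [h l hl h0, zero_smul]

end Pool.Agent.MP_f67ce1_al.TS
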